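import Pool.Agent.H37.CTN.Stmts

/-!
# Row DV0 of the board `ctn`: the derivation with respect to a uniformiser, with values in Laurent series
-/

set_option autoImplicit false

namespace Pool.CND

theorem dv0_thm (h1 : S_LEX) (h2 : S_DLS) : S_DV0 := by
  intro p k L _ _ _ P hp hc
  obtain ⟨φ, -, hφ⟩ := h1 k L P P.pi P.pi_ne P.ord_pi
  obtain ⟨δ, -, hlo, -, heq⟩ := h2 p k hp hc
  have hne : ∀ x : L, x ≠ 0 → φ x ≠ 0 := fun x hx h =>
    hx (φ.toRingHom.injective (by
      rw [map_zero]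
      exact h))
  refine ⟨φ, fun x => δ (φ x), ⟨hφ, ?_, ?_, ?_, ?_, ?_⟩⟩
  · intro x y
    change δ (φ (x + y)) = δ (φ x) + δ (φ y)
    rw [map_add, map_add]
  · intro x y
    change δ (φ (x * y)) = φ x * δ (φ y) + φ y * δ (φ x)
    rw [map_mul, δ.leibniz, smul_eq_mul, smul_eq_mul]
  · intro c
    change δ (φ (algebraMap k L c)) = 0
    rw [φ.commutes, δ.map_algebraMap]
  · intro x hx
    change δ (φ x) = 0 ∨ P.ord x - 1 ≤ (δ (φ x)).order
    have h := hlo (φ x) (hne x hx)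
    rwa [hφ x hx] at h
  · intro x hx hd
    change δ (φ x) ≠ 0 ∧ (δ (φ x)).order = P.ord x - 1
    have h := heq (φ x) (hne x hx)
    rw [hφ x hx] at h
    exact h hd

end Pool.CND
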