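import Pool.Agent.H22.CTN.Tv

/-!
# Row GN2 of the board `ctn`: `n = 3`
-/

set_option autoImplicit false

namespace Pool.CND

open Matrix

theorem gn2_thm (h1 : S_GN3) : S_GN2 := by
  intro F _ _ G₀ htr hG
  apply h1 F 3 G₀
  -- transport along `G₀`
  have key : ∀ v₀ : Fin 3 → F, v₀ ≠ 0 → (∀ χ : Fin 3 → F, χ ⬝ᵥ v₀ = 0 → TR G₀ v₀ χ) →
      ∀ (v χ : Fin 3 → F), χ ⬝ᵥ v = 0 → TR G₀ v χ := by
    intro v₀ hv₀ h v χ hχ
    by_cases hv : v = 0
    · subst hv
      refine ⟨hχ, fun c g hg => ?_⟩
      have : g = 1 := by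
        apply Subtype.ext
        rw [hg, zero_vecMulVec, add_zero]
        rfl
      rw [this]
      exact G₀.one_mem
    · obtain ⟨g, hg, hgv⟩ := htr v₀ v hv₀ hv
      have h2 : TR G₀ v₀ (χ ᵥ* g.1) := h _ (by rw [← dotProduct_mulVec, hgv, hχ])
      have h3 := h2.conj hg rfl
      rwa [hgv] at h3
  have hall : ∀ (v χ : Fin 3 → F), χ ⬝ᵥ v = 0 → TR G₀ v χ := by
    by_contra hnot
    -- any two functionals at `v ≠ 0` are proportional
    have hdep : ∀ v φ ψ : Fin 3 → F, v ≠ 0 → TR G₀ v φ → TR G₀ v ψ → φ ≠ 0 →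
        ∃ c : F, ψ = c • φ := by
      intro v φ ψ hv hφ hψ hφ0
      by_contra hc
      apply hnot
      apply key v hv
      intro χ hχ
      have hdet : (Matrix.of ![φ, ψ, χ]).det = 0 := by
        apply Matrix.exists_mulVec_eq_zero_iff.1
        refine ⟨v, hv, ?_⟩
        funext i
        fin_cases i
        · exact hφ.1
        · exact hψ.1
        · exact hχ
      obtain ⟨a, ha, hav⟩ := Matrix.exists_vecMul_eq_zero_iff.2 hdet
      have hsum : a 0 • φ + a 1 • ψ + a 2 • χ = 0 := by
        rw [← hav]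
        funext j
        simp [Matrix.vecMul, dotProduct, Fin.sum_univ_three]
      by_cases h2 : a 2 = 0
      · exfalso
        rw [h2, zero_smul, add_zero] at hsum
        by_cases h3 : a 1 = 0
        · rw [h3, zero_smul, add_zero] at hsum
          rcases smul_eq_zero.1 hsum with h4 | h4
          · apply ha
            funext i
            fin_cases i
            · exact h4
            · exact h3
            · exact h2
          · exact hφ0 h4
        · apply hc
          refine ⟨-(a 0 / a 1), ?_⟩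
          have h5 : a 1 • ψ = -(a 0 • φ) := eq_neg_of_add_eq_zero_right hsum
          have h6 : ψ = (a 1)⁻¹ • (a 1 • ψ) := by rw [smul_smul, inv_mul_cancel₀ h3, one_smul]
          rw [h6, h5, smul_neg, smul_smul, neg_smul, div_eq_inv_mul]
      · have h5 : a 2 • χ = -(a 0 • φ + a 1 • ψ) := eq_neg_of_add_eq_zero_right hsum
        have h6 : χ = (a 2)⁻¹ • (a 2 • χ) := by rw [smul_smul, inv_mul_cancel₀ h2, one_smul]
        rw [h6, h5]
        have h7 : -(a 0 • φ + a 1 • ψ) = (-(a 0)) • φ + (-(a 1)) • ψ := by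
          rw [neg_smul, neg_smul, neg_add]
        rw [h7]
        exact ((hφ.smulr _).addr (hψ.smulr _)).smulr _
    -- the given pair
    have hbase : TR G₀ ![1, 0, 0] ![0, 0, 1] := by
      refine ⟨by simp [dotProduct, Fin.sum_univ_three], fun c g hg => ?_⟩
      apply hG g
      · intro i j hi
        rw [hg]
        fin_cases i
        · exact absurd rfl hi
        · fin_cases j <;> simp [vecMulVec_apply, Matrix.one_apply]
        · fin_cases j <;> simp [vecMulVec_apply, Matrix.one_apply]
      · rw [hg]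
        simp [vecMulVec_apply]
      · intro j hj hj1
        rw [hg]
        fin_cases j
        · exact absurd rfl hj
        · simp [vecMulVec_apply]
        · exact absurd hj1 (by norm_num)
    have hex : ∀ v : Fin 3 → F, v ≠ 0 → ∃ φ : Fin 3 → F, φ ≠ 0 ∧ TR G₀ v φ := by
      intro v hv
      have h0 : (![1, 0, 0] : Fin 3 → F) ≠ 0 := fun h => one_ne_zero (congrFun h 0)
      obtain ⟨g, hg, hgv⟩ := htr _ v h0 hv
      have e : (![0, 0, 1] ᵥ* (g⁻¹).1) ᵥ* g.1 = (![0, 0, 1] : Fin 3 → F) := by
        rw [vecMul_vecMul, ← Matrix.SpecialLinearGroup.coe_mul, inv_mul_cancel,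
          Matrix.SpecialLinearGroup.coe_one, vecMul_one]
      refine ⟨![0, 0, 1] ᵥ* (g⁻¹).1, ?_, ?_⟩
      · intro h
        rw [h, zero_vecMul] at e
        exact one_ne_zero (congrFun e.symm 2)
      · have h3 := hbase.conj hg e
        rwa [hgv] at h3
    have he2 : (![0, 0, 1] : Fin 3 → F) ≠ 0 := fun h => one_ne_zero (congrFun h 2)
    have he0 : (![1, 0, 0] : Fin 3 → F) ≠ 0 := fun h => one_ne_zero (congrFun h 0)
    obtain ⟨ψ, hψ0, hψ⟩ := hex ![0, 0, 1] he2
    have hψ2 : ψ 2 = 0 := by
      have := hψ.1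
      simpa [dotProduct, Fin.sum_univ_three] using this
    have hψe : ψ 0 ≠ 0 := by
      intro h0
      have h2 : TR G₀ ![1, 0, 0] ψ := hbase.step hψ (by
        simp [dotProduct, Fin.sum_univ_three]) (by
        simp [dotProduct, Fin.sum_univ_three, h0])
      obtain ⟨c, hc⟩ := hdep _ _ _ he0 hbase h2 he2
      apply hψ0
      have h3 : ψ 2 = c := by
        rw [hc]
        simp
      rw [hψ2] at h3
      rw [hc, ← h3, zero_smul]
    have hu0 : (![ψ 1, -ψ 0, 0] : Fin 3 → F) ≠ 0 := fun h =>
      hψe (neg_eq_zero.1 (congrFun h 1))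
    obtain ⟨θ, hθ0, hθ⟩ := hex _ hu0
    have hψu : ψ ⬝ᵥ ![ψ 1, -ψ 0, 0] = 0 := by
      simp [dotProduct, Fin.sum_univ_three]
      ring
    have hθe : θ 0 = 0 := by
      by_contra h0
      have h2 : TR G₀ ![ψ 1, -ψ 0, 0] ![0, 0, 1] := hθ.step hbase (by
        simpa [dotProduct, Fin.sum_univ_three] using h0) (by
        simp [dotProduct, Fin.sum_univ_three])
      obtain ⟨c, hc⟩ := hdep _ _ _ hu0 hθ h2 hθ0
      have h3 : (0 : F) = c * θ 0 := by
        have := congrFun hc 0
        simpa using this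
      rcases mul_eq_zero.1 h3.symm with h4 | h4
      · apply he2
        rw [hc, h4, zero_smul]
      · exact h0 h4
    have hθ2 : θ 2 = 0 := by
      by_contra h0
      have h2 : TR G₀ ![ψ 1, -ψ 0, 0] ψ := hθ.step hψ (by
        simpa [dotProduct, Fin.sum_univ_three] using h0) hψu
      obtain ⟨c, hc⟩ := hdep _ _ _ hu0 hθ h2 hθ0
      have h3 : ψ 2 = c * θ 2 := by
        have := congrFun hc 2
        simpa using this
      rw [hψ2] at h3
      rcases mul_eq_zero.1 h3.symm with h4 | h4
      · apply hψ0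
        rw [hc, h4, zero_smul]
      · exact h0 h4
    apply hθ0
    have h5 := hθ.1
    have h6 : θ 1 = 0 := by
      have h7 : θ 1 * ψ 0 = 0 := by
        simpa [dotProduct, Fin.sum_univ_three, hθe, hθ2] using h5
      rcases mul_eq_zero.1 h7 with h8 | h8
      · exact h8
      · exact absurd h8 hψe
    funext i
    fin_cases i
    · exact hθe
    · exact h6
    · exact hθ2
  intro g v φ hφ hg
  exact (hall v φ hφ).2 1 g (by rw [one_smul]; exact hg)

end Pool.CND
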