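import Pool.Agent.H37.CTN.Stmts

/-!
# Transvections in a subgroup of `SL_n(F)`
-/

set_option autoImplicit false

namespace Pool.CND

open Matrix

section

variable {F : Type} [Field F] {n : ℕ}

/-- the determinant of a rank one change of `1` -/
theorem det_tv (v φ : Fin n → F) : (1 + vecMulVec v φ).det = 1 + φ ⬝ᵥ v := by
  rw [vecMulVec_eq Unit, det_one_add_replicateCol_mul_replicateRow]

/-- the transvection `x ↦ x + φ(x) v` -/
noncomputable def tv (v φ : Fin n → F) (h : φ ⬝ᵥ v = 0) : Matrix.SpecialLinearGroup (Fin n) F :=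
  ⟨1 + vecMulVec v φ, by rw [det_tv, h, add_zero]⟩

/-- all `1 + c v φ` are in `G₀` -/
def TR (G₀ : Subgroup (Matrix.SpecialLinearGroup (Fin n) F)) (v φ : Fin n → F) : Prop :=
  φ ⬝ᵥ v = 0 ∧ ∀ (c : F) (g : Matrix.SpecialLinearGroup (Fin n) F),
    g.1 = 1 + vecMulVec v (c • φ) → g ∈ G₀

variable {G₀ : Subgroup (Matrix.SpecialLinearGroup (Fin n) F)}

theorem TR.smulr {v φ : Fin n → F} (h : TR G₀ v φ) (c : F) : TR G₀ v (c • φ) := by
  refine ⟨by rw [smul_dotProduct, h.1, smul_zero], fun d g hg => h.2 (d * c) g ?_⟩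
  rw [hg, smul_smul]

theorem TR.smull {v φ : Fin n → F} (h : TR G₀ v φ) (c : F) : TR G₀ (c • v) φ := by
  refine ⟨by rw [dotProduct_smul, h.1, smul_zero], fun d g hg => h.2 (d * c) g ?_⟩
  rw [hg, smul_vecMulVec, ← vecMulVec_smul, smul_smul, mul_comm]

theorem TR.addr {v φ ψ : Fin n → F} (h : TR G₀ v φ) (h' : TR G₀ v ψ) : TR G₀ v (φ + ψ) := by
  refine ⟨by rw [add_dotProduct, h.1, h'.1, add_zero], fun c g hg => ?_⟩
  have h1 := h.smulr c
  have h2 := h'.smulr c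
  have e : g = tv v (c • φ) h1.1 * tv v (c • ψ) h2.1 := by
    apply Subtype.ext
    rw [hg]
    change _ = (1 + vecMulVec v (c • φ)) * (1 + vecMulVec v (c • ψ))
    rw [add_mul, mul_add, mul_add, one_mul, one_mul, mul_one, vecMulVec_mul_vecMulVec, h1.1,
      zero_smul, vecMulVec_zero, add_zero, smul_add, vecMulVec_add]
    abel
  rw [e]
  exact G₀.mul_mem (h.2 c _ rfl) (h'.2 c _ rfl)

theorem TR.addl {v w φ : Fin n → F} (h : TR G₀ v φ) (h' : TR G₀ w φ) : TR G₀ (v + w) φ := by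
  refine ⟨by rw [dotProduct_add, h.1, h'.1, add_zero], fun c g hg => ?_⟩
  have h1 := h.smulr c
  have h2 := h'.smulr c
  have e : g = tv v (c • φ) h1.1 * tv w (c • φ) h2.1 := by
    apply Subtype.ext
    rw [hg]
    change _ = (1 + vecMulVec v (c • φ)) * (1 + vecMulVec w (c • φ))
    rw [add_mul, mul_add, mul_add, one_mul, one_mul, mul_one, vecMulVec_mul_vecMulVec, h2.1,
      zero_smul, vecMulVec_zero, add_zero, add_vecMulVec]
    abel
  rw [e]
  exact G₀.mul_mem (h.2 c _ rfl) (h'.2 c _ rfl)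

/-- stable under `G₀` -/
theorem TR.conj {v φ : Fin n → F} (h : TR G₀ v φ) {g : Matrix.SpecialLinearGroup (Fin n) F}
    (hg : g ∈ G₀) {φ' : Fin n → F} (hφ : φ' ᵥ* g.1 = φ) : TR G₀ (g.1 *ᵥ v) φ' := by
  refine ⟨by rw [dotProduct_mulVec, hφ, h.1], fun c x hx => ?_⟩
  have e : g⁻¹ * x * g ∈ G₀ := by
    apply h.2 c
    change (g⁻¹).1 * x.1 * g.1 = _
    have e1 : (g⁻¹).1 * g.1 = 1 := by
      rw [← Matrix.SpecialLinearGroup.coe_mul, inv_mul_cancel, Matrix.SpecialLinearGroup.coe_one]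
    rw [hx, mul_add, mul_one, add_mul, e1, mul_vecMulVec, vecMulVec_mul, mulVec_mulVec, e1,
      one_mulVec, smul_vecMul, hφ]
  have e2 : x = g * (g⁻¹ * x * g) * g⁻¹ := by group
  rw [e2]
  exact G₀.mul_mem (G₀.mul_mem hg e) (G₀.inv_mem hg)

/-- (i) -/
theorem TR.step {v w φ ψ : Fin n → F} (h : TR G₀ v φ) (h' : TR G₀ w ψ) (h1 : φ ⬝ᵥ w ≠ 0)
    (h2 : ψ ⬝ᵥ v = 0) : TR G₀ v ψ := by
  have hg : tv v φ h.1 ∈ G₀ := h.2 1 _ (by rw [one_smul]; rfl)
  have e : ψ ᵥ* (tv v φ h.1).1 = ψ := by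
    change ψ ᵥ* (1 + vecMulVec v φ) = ψ
    rw [vecMul_add, vecMul_one, vecMul_vecMulVec, h2, zero_smul, add_zero]
  have h3 := h'.conj hg e
  have e2 : (tv v φ h.1).1 *ᵥ w = w + (φ ⬝ᵥ w) • v := by
    change (1 + vecMulVec v φ) *ᵥ w = _
    rw [add_mulVec, one_mulVec, vecMulVec_mulVec, op_smul_eq_smul]
  rw [e2] at h3
  have h4 := h3.addl (h'.smull (-1))
  have e3 : w + (φ ⬝ᵥ w) • v + (-1 : F) • w = (φ ⬝ᵥ w) • v := by
    rw [neg_smul, one_smul]
    abel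
  rw [e3] at h4
  have h5 := h4.smull (φ ⬝ᵥ w)⁻¹
  rwa [smul_smul, inv_mul_cancel₀ h1, one_smul] at h5

end

end Pool.CND
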